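import Pool.Agent.H861Z.Prod.Main

/-!
MP_5a3d27_ag, Q1 is false for `n = 2`: on the product of any two hyperelliptic curves of genera
`g₁, g₂ ≥ 2` (for `g₁ = g₂ = 2` these are all curves of these genera) the map
`(x, y, u, v) ↦ (x + v, u)` has degree `4 = gon(C₁) gon(C₂)` and is not Galois, while every product
map of degree four is Galois.
-/

set_option autoImplicit false

namespace Pool.Agent.Results.MP_5a3d27_ag.ATwistedProduct

open Pool.Agent.H861Z.Prod

theorem result (g₁ g₂ : ℕ) (hg₁ : 2 ≤ g₁) (hg₂ : 2 ≤ g₂)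
    (K₁ K₂ : Type) [Field K₁] [Algebra ℂ K₁] [Field K₂] [Algebra ℂ K₂]
    (h₁ : IsHyperellipticField g₁ K₁) (h₂ : IsHyperellipticField g₂ K₂) :
    ∃ φ : PlaneField →ₐ[ℂ] ProductField K₁ K₂,
      mapDegree φ = gonality K₁ * gonality K₂ ∧
      ∀ ψ : PlaneField →ₐ[ℂ] ProductField K₁ K₂, IsProductMap ψ →
        ¬ BirationallyEquivalent φ ψ :=
  main g₁ g₂ hg₁ hg₂ K₁ K₂ h₁ h₂

end Pool.Agent.Results.MP_5a3d27_ag.ATwistedProduct
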